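import Pool.Agent.N145.SX.Stm

/-!
Project SX (helper145), task SEC (helper221): the product of logarithmic canonical forms on `X` and on
the curve `C` is a logarithmic canonical form on `X × C`.
-/

set_option autoImplicit false
set_option linter.overlappingInstances false
set_option linter.unusedSectionVars false
set_option linter.unusedVariables false
set_option maxHeartbeats 4000000
set_option synthInstance.maxHeartbeats 400000

open Polynomial FF IntermediateField Module

namespace Pool.Agent.N221.SX

open Pool.Agent.W603.LV (Ge vo)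
open Pool.Agent.N145.PL (HL bd)
open Pool.Agent.N145.SX (HX BdX zz S_PULL S_SEC)
open Pool.Agent.W602.GT (Divisorial RegAt DerReg DerLog LogAt)
open Pool.Agent.Y184.NT (trForm)
open Pool.Agent.R882.LT (SecAt)

section

variable {K E C : Type} [Field K] [Field E] [Field C] [Algebra ℂ K] [Algebra ℂ E] [Algebra ℂ C]
  [Algebra E K] [Algebra C K] [IsScalarTower ℂ E K] [IsScalarTower ℂ C K] [IsFF ℂ C] {m : ℕ}

omit [Algebra ℂ E] [Algebra ℂ C] [IsScalarTower ℂ E K] [IsScalarTower ℂ C K] [IsFF ℂ C] in
/-- expansion along the last column -/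
theorem expand (Q : Place ℂ K) (x : Fin m → E) (f : E) (t φ : C)
    (D : Fin (m + 1) → Derivation ℂ K K)
    (h1 : ∀ i, Ge Q 0 (algebraMap C K φ * D i (algebraMap C K t)))
    (h2 : ∀ i : Fin (m + 1), Ge Q 0 ((Matrix.of fun a b => D (i.succAbove a) (algebraMap E K (x b)) :
      Matrix (Fin m) (Fin m) K).det * algebraMap E K f)) :
    Ge Q 0 (trForm (zz K x t) (algebraMap E K f * algebraMap C K φ) D) := by
  unfold trForm
  rw [Matrix.det_succ_column _ (Fin.last m), Finset.sum_mul]
  refine Ge.sum _ _ fun i _ => ?_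
  have e1 : (Matrix.of fun i j => D i (zz K x t j) : Matrix (Fin (m + 1)) (Fin (m + 1)) K) i
      (Fin.last m) = D i (algebraMap C K t) := by
    rw [Matrix.of_apply]
    unfold zz
    rw [Fin.snoc_last]
  have e2 : (Matrix.of fun i j => D i (zz K x t j) : Matrix (Fin (m + 1)) (Fin (m + 1)) K).submatrix
      i.succAbove (Fin.last m).succAbove =
      (Matrix.of fun a b => D (i.succAbove a) (algebraMap E K (x b)) : Matrix (Fin m) (Fin m) K) := by
    ext a b
    rw [Matrix.submatrix_apply, Matrix.of_apply, Matrix.of_apply, Fin.succAbove_last]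
    unfold zz
    rw [Fin.snoc_castSucc]
  rw [e1, e2]
  have h3 : Ge Q 0 ((((-1) ^ ((i : ℕ) + (Fin.last m : ℕ)) : ℤ) : ℤ) : K) := Ge.intCast _
  have h4 := h3.mul ((h1 i).mul (h2 i))
  have e3 : ((((-1) ^ ((i : ℕ) + (Fin.last m : ℕ)) : ℤ) : ℤ) : K) *
      (algebraMap C K φ * D i (algebraMap C K t) *
        ((Matrix.of fun a b => D (i.succAbove a) (algebraMap E K (x b)) :
          Matrix (Fin m) (Fin m) K).det * algebraMap E K f)) =
      (-1) ^ ((i : ℕ) + (Fin.last m : ℕ)) * D i (algebraMap C K t) *
        (Matrix.of fun a b => D (i.succAbove a) (algebraMap E K (x b)) :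
          Matrix (Fin m) (Fin m) K).det * (algebraMap E K f * algebraMap C K φ) := by
    push_cast
    ring
  rw [e3] at h4
  exact h4.mono (by norm_num)

omit [Algebra ℂ E] [Algebra E K] [IsScalarTower ℂ E K] in
/-- the value of a logarithmic vector field on a logarithmic differential of the curve -/
theorem ent_log {t : C} (ht : Transcendental ℂ t) {D0 : Derivation ℂ C C} (hD0 : D0 t = 1)
    {B : Set (Place ℂ C)} {φ : C} (hφ : φ ∈ HL D0 B) (P : Place ℂ K) {D : Derivation ℂ K K}
    (hD : DerLog P D) : Ge P 0 (algebraMap C K φ * D (algebraMap C K t)) := by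
  have hD0' : D0 ≠ 0 := by
    intro h
    rw [h] at hD0
    simp at hD0
  have hlog : ∀ z : K, Ge P 0 (D z / z) := fun z => hD z
  by_cases h : ∀ g : C, P.ord (algebraMap C K g) = 0
  · have h1 : Ge P 0 (algebraMap C K φ) := Or.inr (h _).ge
    have hx0 : algebraMap C K t ≠ 0 := by
      rw [Ne, map_eq_zero]
      intro h0
      apply ht
      rw [h0]
      exact isAlgebraic_zero
    have h2 : Ge P 0 (algebraMap C K t) := Or.inr (h _).ge
    have h3 := (hlog (algebraMap C K t)).mul h2
    rw [div_mul_cancel₀ _ hx0] at h3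
    simpa using h1.mul h3
  · push Not at h
    obtain ⟨e, p, hp⟩ := FF.exists_over (K := C) P h
    obtain ⟨s, hs0, hs⟩ := p.surj
    obtain ⟨r, hr1, hr2⟩ := Pool.Agent.W619.PQ.ratio' (K := K) (k := ℂ) (E := C) ht s
    have h1 : r = D0 s := by rw [hr1, hD0, mul_one]
    have h2 := Pool.Agent.W603.LV.ord_der p hD0' (f := s) (by omega)
    rw [← h1, hs] at h2
    have hr0 : r ≠ 0 := h2.1
    have hb1 : bd B p ≤ 1 := by
      unfold bd
      split_ifs <;> norm_num
    have h3 : Ge p 0 (φ * s / r) := by
      rcases hφ p with h4 | h4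
      · left
        rw [h4, zero_mul, zero_div]
      · by_cases hf0 : φ = 0
        · left
          rw [hf0, zero_mul, zero_div]
        · right
          rw [p.ord_div (mul_ne_zero hf0 hs0) hr0, p.ord_mul hf0 hs0, hs, h2.2]
          omega
    have h4 : Ge P 0 (algebraMap C K (φ * s / r)) := by
      rcases h3 with h5 | h5
      · left
        rw [h5, map_zero]
      · right
        rw [hp.2]
        positivity
    have htK : algebraMap C K s ≠ 0 := by simpa using hs0
    have hrK : algebraMap C K r ≠ 0 := by simpa using hr0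
    have h5 := h4.mul (hlog (algebraMap C K s))
    have h6 : algebraMap C K (φ * s / r) * (D (algebraMap C K s) / algebraMap C K s) =
        algebraMap C K φ * D (algebraMap C K t) := by
      rw [hr2 D, map_div₀, map_mul]
      field_simp
    rw [h6] at h5
    simpa using h5

omit [Algebra ℂ E] [Algebra E K] [IsScalarTower ℂ E K] in
/-- the value of a regular vector field on a logarithmic differential of the curve, outside the
boundary -/
theorem ent_reg {t : C} (ht : Transcendental ℂ t) {D0 : Derivation ℂ C C} (hD0 : D0 t = 1)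
    {B : Set (Place ℂ C)} {φ : C} (hφ : φ ∈ HL D0 B) (P : Place ℂ K)
    (hP : ∀ p ∈ B, ∀ e : ℕ, ¬ Over P p e) {D : Derivation ℂ K K}
    (hD : DerReg P D) : Ge P 0 (algebraMap C K φ * D (algebraMap C K t)) := by
  have hD0' : D0 ≠ 0 := by
    intro h
    rw [h] at hD0
    simp at hD0
  have hreg : ∀ z : K, Ge P 0 z → Ge P 0 (D z) := fun z hz => hD z hz
  by_cases h : ∀ g : C, P.ord (algebraMap C K g) = 0
  · have h1 : Ge P 0 (algebraMap C K φ) := Or.inr (h _).ge
    have h2 : Ge P 0 (algebraMap C K t) := Or.inr (h _).ge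
    simpa using h1.mul (hreg _ h2)
  · push Not at h
    obtain ⟨e, p, hp⟩ := FF.exists_over (K := C) P h
    obtain ⟨s, hs0, hs⟩ := p.surj
    obtain ⟨r, hr1, hr2⟩ := Pool.Agent.W619.PQ.ratio' (K := K) (k := ℂ) (E := C) ht s
    have h1 : r = D0 s := by rw [hr1, hD0, mul_one]
    have h2 := Pool.Agent.W603.LV.ord_der p hD0' (f := s) (by omega)
    rw [← h1, hs] at h2
    have hr0 : r ≠ 0 := h2.1
    have hb0 : bd B p = 0 := by
      unfold bd
      rw [if_neg]
      exact fun hpB => hP p hpB e hp
    have h3 : Ge p 0 (φ / r) := by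
      rcases hφ p with h4 | h4
      · left
        rw [h4, zero_div]
      · by_cases hf0 : φ = 0
        · left
          rw [hf0, zero_div]
        · right
          rw [p.ord_div hf0 hr0, h2.2]
          omega
    have h4 : Ge P 0 (algebraMap C K (φ / r)) := by
      rcases h3 with h5 | h5
      · left
        rw [h5, map_zero]
      · right
        rw [hp.2]
        positivity
    have h7 : Ge P 0 (algebraMap C K s) := by
      right
      rw [hp.2, hs]
      positivity
    have hrK : algebraMap C K r ≠ 0 := by simpa using hr0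
    have h5 := h4.mul (hreg _ h7)
    have h6 : algebraMap C K (φ / r) * D (algebraMap C K s) =
        algebraMap C K φ * D (algebraMap C K t) := by
      rw [hr2 D, map_div₀]
      field_simp
    rw [h6] at h5
    simpa using h5

end

theorem SEC (hpull : S_PULL) : S_SEC := by
  intro K E C _ _ _ _ _ _ _ _ _ _ _ _ m htE htK x hx BX f hf t ht D0 hD0 B φ hφ Q hQ
  refine ⟨fun D hD => ?_, fun hQB D hD => ?_⟩
  · exact expand Q x f t φ D (fun i => ent_log ht hD0 hφ Q (hD i))
      fun i => hpull E K m (m + 1) htE htK x hx BX f hf Q hQ (fun a => D (i.succAbove a))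
        (Or.inl fun a => hD _)
  · exact expand Q x f t φ D
      (fun i => ent_reg ht hD0 hφ Q (fun p hp e he => hQB (Or.inr ⟨p, hp, e, he⟩)) (hD i))
      fun i => hpull E K m (m + 1) htE htK x hx BX f hf Q hQ (fun a => D (i.succAbove a))
        (Or.inr ⟨fun h => hQB (Or.inl h), fun a => hD _⟩)

end Pool.Agent.N221.SX
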